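import Mathlib

/-! Factorial series of divisor functions: growth, integrality and expansion. -/

namespace Pool.Agent.Lib.MP_68a45e_nt.Ek

open Finset Filter Topology Asymptotics

/-- sum of the `k`-th powers of the divisors, as a real number -/
noncomputable def sg (k n : ℕ) : ℝ := (ArithmeticFunction.sigma k n : ℝ)

theorem sg_nonneg (k n : ℕ) : 0 ≤ sg k n := Nat.cast_nonneg _

theorem sg_pos (k : ℕ) {n : ℕ} (hn : 0 < n) : 0 < sg k n := by
  unfold sg
  exact_mod_cast ArithmeticFunction.sigma_pos k n hn.ne'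

theorem sg_mul (k : ℕ) {m n : ℕ} (h : m.Coprime n) : sg k (m * n) = sg k m * sg k n := by
  unfold sg
  rw [ArithmeticFunction.isMultiplicative_sigma.map_mul_of_coprime h, Nat.cast_mul]

theorem card_div_le (m : ℕ) : #m.divisors ≤ 2 * m.sqrt := by
  have h : m.divisors ⊆ Icc 1 m.sqrt ∪ (Icc 1 m.sqrt).image (m / ·) := by
    intro d hd
    obtain ⟨⟨e, he⟩, h0⟩ := Nat.mem_divisors.1 hd
    have hd0 : 0 < d := Nat.pos_of_mem_divisors hd
    have he0 : 0 < e := Nat.pos_of_ne_zero fun h => h0 (by rw [he, h, mul_zero])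
    rcases Nat.le_sqrt_of_eq_mul he with h1 | h1
    · exact mem_union_left _ (mem_Icc.2 ⟨hd0, h1⟩)
    · exact mem_union_right _ (mem_image.2 ⟨e, mem_Icc.2 ⟨he0, h1⟩, by
        rw [he]; exact Nat.mul_div_cancel d he0⟩)
  have h1 := (card_le_card h).trans (card_union_le _ _)
  have h2 := card_image_le (s := Icc 1 m.sqrt) (f := (m / ·))
  rw [Nat.card_Icc] at h1 h2
  omega

theorem sg_le (k m : ℕ) : sg k m ≤ 2 * √(m : ℝ) * (m : ℝ) ^ k := by
  have h1 : ArithmeticFunction.sigma k m ≤ #m.divisors * m ^ k := by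
    rw [ArithmeticFunction.sigma_apply, ← smul_eq_mul]
    exact sum_le_card_nsmul _ _ _ fun d hd => Nat.pow_le_pow_left (Nat.divisor_le hd) k
  have h2 : sg k m ≤ ((2 * m.sqrt * m ^ k : ℕ) : ℝ) := by
    unfold sg
    exact_mod_cast h1.trans (Nat.mul_le_mul_right _ (card_div_le m))
  refine h2.trans ?_
  push_cast
  have := Real.nat_sqrt_le_real_sqrt (a := m)
  gcongr

theorem sg_small {k r : ℕ} (hk : k ≤ r) :
    Tendsto (fun m : ℕ => sg k m / (m : ℝ) ^ (r + 1)) atTop (𝓝 0) := by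
  have h0 : Tendsto (fun m : ℕ => 2 * (√(m : ℝ))⁻¹) atTop (𝓝 (2 * 0)) :=
    ((Real.tendsto_sqrt_atTop.comp tendsto_natCast_atTop_atTop).inv_tendsto_atTop).const_mul 2
  rw [mul_zero] at h0
  refine squeeze_zero' (Eventually.of_forall fun m => div_nonneg (sg_nonneg _ _) (by positivity))
    ?_ h0
  filter_upwards [eventually_ge_atTop 1] with m hm
  have hm' : (1 : ℝ) ≤ m := by exact_mod_cast hm
  have hs : 0 < √(m : ℝ) := Real.sqrt_pos.2 (by linarith)
  rw [div_le_iff₀ (by positivity)]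
  refine (sg_le k m).trans ?_
  have h1 : (m : ℝ) ^ k ≤ (m : ℝ) ^ r := pow_le_pow_right₀ hm' hk
  have h2 : 2 * (√(m : ℝ))⁻¹ * (m : ℝ) ^ (r + 1) = 2 * √(m : ℝ) * (m : ℝ) ^ r := by
    have h3 := Real.mul_self_sqrt (show (0 : ℝ) ≤ m by linarith)
    field_simp
    rw [pow_succ, sq, h3, mul_comm]
  rw [h2]
  gcongr

theorem half (r : ℕ) {M : ℕ} (hM : 2 ^ (r + 1) ≤ M) (h : ℕ) :
    ((h + M : ℕ) : ℝ) ^ r / ((h + M).factorial : ℝ) ≤
      (M : ℝ) ^ r / (M.factorial : ℝ) * (1 / 2) ^ h := by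
  induction h with
  | zero => simp
  | succ h ih =>
    have hM1 : 1 ≤ M := le_trans Nat.one_le_two_pow hM
    have h1 : ((h + 1 + M : ℕ) : ℝ) ^ r ≤ 2 ^ r * ((h + M : ℕ) : ℝ) ^ r := by
      rw [← mul_pow]
      have : h + 1 + M ≤ 2 * (h + M) := by omega
      exact pow_le_pow_left₀ (Nat.cast_nonneg _) (by exact_mod_cast this) r
    have h2 : (2 : ℝ) ^ (r + 1) ≤ ((h + M + 1 : ℕ) : ℝ) := by
      exact_mod_cast (show 2 ^ (r + 1) ≤ h + M + 1 by omega)
    have h3 : (0 : ℝ) < (h + M).factorial := by exact_mod_cast Nat.factorial_pos _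
    have h4 : (((h + 1 + M).factorial : ℕ) : ℝ) = ((h + M + 1 : ℕ) : ℝ) * (h + M).factorial := by
      rw [Nat.add_right_comm, Nat.factorial_succ, Nat.cast_mul]
    calc _ ≤ 2 ^ r * ((h + M : ℕ) : ℝ) ^ r / (2 ^ (r + 1) * (h + M).factorial) := by
          rw [h4]; gcongr
      _ = ((h + M : ℕ) : ℝ) ^ r / ((h + M).factorial : ℝ) * (1 / 2) := by field_simp; ring
      _ ≤ (M : ℝ) ^ r / (M.factorial : ℝ) * (1 / 2) ^ h * (1 / 2) := by gcongr
      _ = _ := by ring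

theorem summable_of {f : ℕ → ℝ} {r : ℕ}
    (hf : Tendsto (fun m : ℕ => f m / (m : ℝ) ^ (r + 1)) atTop (𝓝 0)) :
    Summable fun n : ℕ => f n / (n.factorial : ℝ) := by
  refine Summable.of_norm_bounded_eventually_nat
    (Real.summable_pow_div_factorial ((2 : ℝ) ^ (r + 1))) ?_
  filter_upwards [Metric.tendsto_nhds.1 hf 1 one_pos, eventually_ge_atTop 1] with m h hm
  have hm' : (0 : ℝ) < m := by exact_mod_cast hm
  rw [Real.dist_eq, sub_zero, abs_div, abs_of_pos (pow_pos hm' _),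
    div_lt_one (pow_pos hm' _)] at h
  rw [Real.norm_eq_abs, abs_div, Nat.abs_cast]
  refine div_le_div_of_nonneg_right (h.le.trans ?_) (Nat.cast_nonneg _)
  rw [← pow_mul, mul_comm, pow_mul]
  exact pow_le_pow_left₀ hm'.le (by exact_mod_cast (Nat.lt_two_pow_self).le) _

theorem first {f : ℕ → ℤ} {r : ℕ}
    (hf : Tendsto (fun m : ℕ => (f m : ℝ) / (m : ℝ) ^ (r + 1)) atTop (𝓝 0)) {b : ℤ}
    (hb : ∑' n : ℕ, (f n : ℝ) / (n.factorial : ℝ) = b) :
    ∃ z : ℕ → ℤ, (∀ N : ℕ, 1 ≤ N → (N : ℤ) * z N = f N + z (N + 1)) ∧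
      Tendsto (fun N : ℕ => (z N : ℝ) / (N : ℝ) ^ r) atTop (𝓝 0) := by
  have hs := summable_of hf
  obtain ⟨y, y0, y1⟩ : ∃ y : ℕ → ℤ, y 0 = b - f 0 ∧
      ∀ n, y (n + 1) = ((n + 1 : ℕ) : ℤ) * y n - f (n + 1) :=
    ⟨fun N => Nat.rec (b - f 0) (fun n v => ((n + 1 : ℕ) : ℤ) * v - f (n + 1)) N, rfl,
      fun _ => rfl⟩
  have y2 : ∀ n : ℕ, ((y n : ℤ) : ℝ) =
      (n.factorial : ℝ) * ((b : ℝ) - ∑ i ∈ range (n + 1), (f i : ℝ) / (i.factorial : ℝ)) := by
    intro n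
    induction n with
    | zero => simp [y0]
    | succ n ih =>
      have h3 : (0 : ℝ) < (n + 1).factorial := by exact_mod_cast Nat.factorial_pos _
      rw [y1, sum_range_succ _ (n + 1), ← sub_sub, mul_sub, mul_div_cancel₀ _ h3.ne',
        Nat.factorial_succ]
      push_cast
      rw [ih]; ring
  refine ⟨fun N => y (N - 1), fun N hN => ?_, ?_⟩
  · obtain ⟨n, rfl⟩ : ∃ n, N = n + 1 := ⟨N - 1, by omega⟩
    simp only [Nat.add_sub_cancel]
    rw [y1]; ring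
  · rw [Metric.tendsto_atTop] at hf ⊢
    intro ε hε
    obtain ⟨m0, hm0⟩ := hf (ε / 4) (by positivity)
    refine ⟨max m0 (2 ^ (r + 2)), fun N hN => ?_⟩
    have hN1 : 2 ^ (r + 1 + 1) ≤ N := (le_max_right _ _).trans hN
    obtain ⟨n, rfl⟩ : ∃ n, N = n + 1 := ⟨N - 1, by have := Nat.one_le_two_pow (n := r + 1 + 1); omega⟩
    simp only [Nat.add_sub_cancel]
    have h1 := hs.sum_add_tsum_nat_add (n + 1)
    have h2 : ‖∑' i : ℕ, (f (i + (n + 1)) : ℝ) / ((i + (n + 1)).factorial : ℝ)‖ ≤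
        ε / 4 * (((n + 1 : ℕ) : ℝ) ^ (r + 1) / ((n + 1).factorial : ℝ)) * 2 := by
      refine tsum_of_norm_bounded (hasSum_geometric_two.mul_left _) fun i => ?_
      have h3 := hm0 (i + (n + 1)) (by have := (le_max_left _ _).trans hN; omega)
      have h4 : (0 : ℝ) < ((i + (n + 1) : ℕ) : ℝ) := by positivity
      rw [Real.dist_eq, sub_zero, abs_div, abs_of_pos (pow_pos h4 _),
        div_lt_iff₀ (pow_pos h4 _)] at h3
      rw [Real.norm_eq_abs, abs_div, Nat.abs_cast, mul_assoc]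
      refine le_trans ?_ (mul_le_mul_of_nonneg_left (half (r + 1) hN1 i) (by positivity))
      rw [← mul_div_assoc]
      exact div_le_div_of_nonneg_right h3.le (Nat.cast_nonneg _)
    have h5 : (0 : ℝ) < n.factorial := by exact_mod_cast Nat.factorial_pos _
    have h6 : (0 : ℝ) < ((n + 1 : ℕ) : ℝ) := by positivity
    rw [Real.dist_eq, sub_zero, y2, ← hb, ← h1, add_sub_cancel_left, abs_div, abs_mul,
      abs_of_pos h5, abs_of_pos (pow_pos h6 _), div_lt_iff₀ (pow_pos h6 _)]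
    rw [Real.norm_eq_abs] at h2
    refine (mul_le_mul_of_nonneg_left h2 h5.le).trans_lt ?_
    have h7 : (n.factorial : ℝ) * (ε / 4 * (((n + 1 : ℕ) : ℝ) ^ (r + 1) /
        ((n + 1).factorial : ℝ)) * 2) = ε / 2 * ((n + 1 : ℕ) : ℝ) ^ r := by
      rw [Nat.factorial_succ, Nat.cast_mul]; field_simp; ring
    rw [h7]
    have := pow_pos h6 r
    nlinarith

theorem unroll {f z : ℕ → ℤ} (hz : ∀ N : ℕ, 1 ≤ N → (N : ℤ) * z N = f N + z (N + 1)) {N : ℕ}
    (hN : 1 ≤ N) (r : ℕ) : (z N : ℝ) - ∑ h ∈ range r, (f (N + h) : ℝ) /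
      ∏ j ∈ range (h + 1), ((N : ℝ) + j) = z (N + r) / ∏ j ∈ range r, ((N : ℝ) + j) := by
  have hN' : (0 : ℝ) < N := by exact_mod_cast hN
  induction r with
  | zero => simp
  | succ r ih =>
    have h1 : (((N + r : ℕ) : ℤ) : ℝ) * z (N + r) = f (N + r) + z (N + r + 1) := by
      exact_mod_cast hz (N + r) (by omega)
    have h2 : 0 < ∏ j ∈ range r, ((N : ℝ) + j) := prod_pos fun j _ => by positivity
    have h3 : 0 < (N : ℝ) + r := by positivity
    push_cast at h1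
    rw [sum_range_succ, ← sub_sub, ih, prod_range_succ, ← add_assoc]
    field_simp
    linarith

theorem near {f z : ℕ → ℤ} {r : ℕ} (hz : ∀ N : ℕ, 1 ≤ N → (N : ℤ) * z N = f N + z (N + 1))
    (hg : Tendsto (fun N : ℕ => (z N : ℝ) / (N : ℝ) ^ r) atTop (𝓝 0)) :
    Tendsto (fun N : ℕ => (z N : ℝ) - ∑ h ∈ range r, (f (N + h) : ℝ) /
      ∏ j ∈ range (h + 1), ((N : ℝ) + j)) atTop (𝓝 0) := by
  have h1 := ((hg.comp (tendsto_add_atTop_nat r)).abs).mul_const ((2 : ℝ) ^ r)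
  rw [abs_zero, zero_mul] at h1
  refine squeeze_zero_norm' ?_ h1
  filter_upwards [eventually_ge_atTop 1, eventually_ge_atTop r] with N hN hr
  have hN' : (0 : ℝ) < N := by exact_mod_cast hN
  have h2 : (N : ℝ) ^ r ≤ ∏ j ∈ range r, ((N : ℝ) + j) := by
    rw [← card_range r, ← prod_const, card_range]
    exact prod_le_prod (fun _ _ => hN'.le) fun j _ => le_add_of_nonneg_right (Nat.cast_nonneg _)
  have h3 : ((N + r : ℕ) : ℝ) ^ r ≤ 2 ^ r * (N : ℝ) ^ r := by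
    rw [← mul_pow]
    exact pow_le_pow_left₀ (Nat.cast_nonneg _) (by exact_mod_cast (by omega : N + r ≤ 2 * N)) r
  have h4 : (0 : ℝ) < ((N + r : ℕ) : ℝ) ^ r := by positivity
  have h5 := pow_pos hN' r
  rw [unroll hz hN, Real.norm_eq_abs, abs_div, abs_of_pos (h5.trans_le h2), Function.comp_apply,
    abs_div, abs_of_pos h4, div_mul_eq_mul_div, div_le_div_iff₀ (h5.trans_le h2) h4, mul_assoc]
  exact mul_le_mul_of_nonneg_left (h3.trans (by gcongr)) (abs_nonneg _)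

theorem approx (h s : ℕ) : ∃ b : ℕ → ℝ, b 0 = 1 ∧ ∀ g : ℕ → ℝ,
    Tendsto (fun m : ℕ => g m / (m : ℝ) ^ (h + s + 1)) atTop (𝓝 0) →
    Tendsto (fun N : ℕ => g (N + h) / ∏ j ∈ range (h + 1), ((N : ℝ) + j) -
      ∑ j ∈ range s, b j * (g (N + h) / ((N + h : ℕ) : ℝ) ^ (h + 1 + j))) atTop (𝓝 0) := by
  have hA : AnalyticAt ℝ (fun y : ℝ => (∏ i ∈ range (h + 1), (1 - (i : ℝ) * y))⁻¹) 0 :=
    (Finset.analyticAt_fun_prod _ fun i _ => by fun_prop).inv (by simp)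
  obtain ⟨p, hp⟩ := hA
  refine ⟨p.coeff, by simpa using hp.coeff_zero 1, fun g hg => ?_⟩
  have hy : Tendsto (fun N : ℕ => (((N + h : ℕ) : ℝ))⁻¹) atTop (𝓝 0) :=
    tendsto_inv_atTop_nhds_zero_nat.comp (tendsto_add_atTop_nat h)
  have h1 := (hp.isBigO_sub_partialSum_pow s).comp_tendsto hy
  have h2 := (isBigO_refl (fun N : ℕ => g (N + h) / ((N + h : ℕ) : ℝ) ^ (h + 1)) atTop).mul h1
  have h3 : Tendsto (fun N : ℕ => g (N + h) / ((N + h : ℕ) : ℝ) ^ (h + 1) *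
      ‖(((N + h : ℕ) : ℝ))⁻¹‖ ^ s) atTop (𝓝 0) := by
    refine (hg.comp (tendsto_add_atTop_nat h)).congr fun N => ?_
    rw [Function.comp_apply, norm_inv, Real.norm_natCast, inv_pow, ← div_eq_mul_inv, div_div,
      ← pow_add, Nat.add_right_comm h 1 s]
  refine (h2.trans_tendsto h3).congr' ?_
  filter_upwards [eventually_ge_atTop 1] with N hN
  have hN' : (0 : ℝ) < N := by exact_mod_cast hN
  have hx : (0 : ℝ) < ((N + h : ℕ) : ℝ) := by positivity
  have e1 : ((N + h : ℕ) : ℝ) ^ (h + 1) *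
      ∏ i ∈ range (h + 1), (1 - (i : ℝ) * (((N + h : ℕ) : ℝ))⁻¹) =
      ∏ j ∈ range (h + 1), ((N : ℝ) + j) := by
    rw [← prod_range_reflect (fun j => (N : ℝ) + j), ← card_range (h + 1), ← prod_const,
      card_range, ← prod_mul_distrib]
    refine prod_congr rfl fun i hi => ?_
    have hi' : i ≤ h := Nat.lt_succ_iff.1 (mem_range.1 hi)
    rw [mul_sub, mul_one, mul_left_comm, mul_inv_cancel₀ hx.ne', mul_one, Nat.add_sub_cancel,
      Nat.cast_sub hi']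
    push_cast; ring
  simp only [Function.comp_apply, zero_add, FormalMultilinearSeries.partialSum,
    FormalMultilinearSeries.apply_eq_pow_smul_coeff, smul_eq_mul]
  rw [mul_sub, ← div_eq_mul_inv, div_div, e1, mul_sum]
  congr 1
  refine sum_congr rfl fun j _ => ?_
  rw [pow_add _ (h + 1) j, inv_pow]
  field_simp

end Pool.Agent.Lib.MP_68a45e_nt.Ek
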