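import Mathlib

namespace Pool.Agent.Lib.MP_68a45e_nt.Ek

open Finset

theorem digits_inj {K B : ℕ} (f g : Fin K → ℕ) (hf : ∀ i, f i < B) (hg : ∀ i, g i < B)
    (h : ∑ i, f i * B ^ (i : ℕ) = ∑ i, g i * B ^ (i : ℕ)) : f = g := by
  have h1 : finFunctionFinEquiv (fun i => (⟨f i, hf i⟩ : Fin B)) =
      finFunctionFinEquiv (fun i => (⟨g i, hg i⟩ : Fin B)) :=
    Fin.ext (by simpa only [finFunctionFinEquiv_apply] using h)
  funext i
  exact congrArg Fin.val (congrFun (finFunctionFinEquiv.injective h1) i)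

theorem digits_lt {K B : ℕ} (f : Fin K → ℕ) (hf : ∀ i, f i < B) :
    ∑ i, f i * B ^ (i : ℕ) < B ^ K := by
  simpa only [finFunctionFinEquiv_apply] using
    (finFunctionFinEquiv (fun i => (⟨f i, hf i⟩ : Fin B))).2

theorem cube (K S : ℕ) : ∃ (W : ℕ) (u : Fin K → ℕ) (R r n0 : ℕ), 0 < W ∧ (∀ i, 0 < u i) ∧ 0 < R ∧
    (Function.Injective fun e : Fin K → Fin S =>
      K + W * ∑ i : Fin K, (K - i) * (e i : ℕ) * u i) ∧
    ∀ n, n0 ≤ n → n ≡ r [MOD R] → ∀ e : Fin K → Fin S, ∃ N : ℕ, ∀ h : ℕ, h ≤ K →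
      (((1 + W * ∑ i, (e i : ℕ) * u i) * (N + h) : ℕ) : ℤ) =
        n + h + W * ∑ i : Fin K, ((h : ℤ) - (i : ℕ)) * (e i : ℕ) * u i ∧
      Nat.Coprime (1 + W * ∑ i, (e i : ℕ) * u i) (N + h) := by
  classical
  set B := (K + 1) * S + 1 with hB
  set W := (K + 1 + B ^ K).factorial with hW
  have W0 : 0 < W := Nat.factorial_pos _
  have d1 : ∀ (e : Fin K → Fin S) (i : Fin K) (c : ℕ), c ≤ K + 1 → c * (e i : ℕ) < B :=
    fun e i c hc => Nat.lt_succ_of_le (Nat.mul_le_mul hc (e i).2.le)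
  have d2 : ∀ (e : Fin K → Fin S) (i : Fin K), (e i : ℕ) < B := fun e i => by
    simpa using d1 e i 1 (by omega)
  set s : (Fin K → Fin S) → ℕ := fun e => ∑ i, (e i : ℕ) * B ^ (i : ℕ) with hs
  set b : (Fin K → Fin S) → ℕ := fun e => W * ∑ i : Fin K, i * (e i : ℕ) * B ^ (i : ℕ) with hb
  have c1 : ∀ e e', s e < s e' → Nat.Coprime (1 + W * s e) (1 + W * s e') := fun e e' h => by
    have := digits_lt _ (d2 e')
    rw [add_comm, mul_comm, add_comm 1, mul_comm W]
    exact Nat.coprime_mul_succ (Nat.dvd_factorial (by omega) (by simp only [hs]; omega))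
  have c2 : Set.Pairwise (↑(univ : Finset (Fin K → Fin S)))
      (Function.onFun Nat.Coprime fun e => (1 + W * s e) ^ 2) := fun e _ e' _ h => by
    refine Nat.Coprime.pow 2 2 ?_
    rcases lt_trichotomy (s e) (s e') with h1 | h1 | h1
    · exact c1 _ _ h1
    · exact absurd (funext fun i => Fin.ext (congrFun (digits_inj _ _ (d2 e) (d2 e') h1) i)) h
    · exact (c1 _ _ h1).symm
  obtain ⟨r, hr⟩ := Nat.chineseRemainderOfFinset (fun e => b e + (1 + W * s e))
    (fun e => (1 + W * s e) ^ 2) univ (fun e _ => by positivity) c2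
  refine ⟨W, fun i => B ^ (i : ℕ), ∏ e, (1 + W * s e) ^ 2, r, ∑ e, (b e + (1 + W * s e)), W0,
    fun i => by positivity, prod_pos fun e _ => by positivity, fun e e' h => ?_,
    fun n hn hm e => ?_⟩
  · have h1 := digits_inj _ _ (fun i => d1 e i (K - i) (by omega))
      (fun i => d1 e' i (K - i) (by omega))
      (Nat.eq_of_mul_eq_mul_left W0 (Nat.add_left_cancel h))
    exact funext fun i => Fin.ext (Nat.eq_of_mul_eq_mul_left (by have := i.2; omega)
      (congrFun h1 i))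
  · have h1 : b e + (1 + W * s e) ≤ n := (single_le_sum (f := fun e => b e + (1 + W * s e))
      (fun _ _ => Nat.zero_le _) (mem_univ e)).trans hn
    obtain ⟨q, hq⟩ := (Nat.modEq_iff_dvd' h1).1
      ((hm.of_dvd (dvd_prod_of_mem _ (mem_univ e))).trans (hr e (mem_univ e))).symm
    have h2 : n = b e + (1 + W * s e) + (1 + W * s e) ^ 2 * q := by omega
    refine ⟨1 + (1 + W * s e) * q, fun h hh => ⟨?_, ?_⟩⟩
    · rw [h2]
      simp only [hb, hs, sub_mul, sum_sub_distrib, mul_assoc, ← mul_sum]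
      push_cast
      ring
    · change Nat.Coprime (1 + W * s e) _
      rw [add_right_comm, Nat.coprime_add_mul_left_right]
      have h3 : 1 + h ∣ W := Nat.dvd_factorial (by omega)
        (le_trans (by omega) (Nat.le_add_right (K + 1) _))
      exact Nat.Coprime.coprime_dvd_right (h3.mul_right (s e)) (by simp)

end Pool.Agent.Lib.MP_68a45e_nt.Ek
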