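import Mathlib

/-! Integer combinations of shifted divisor sums are not close to integers on a whole class. -/

namespace Pool.Agent.Lib.MP_68a45e_nt.Ek

open Finset

namespace LastRx

lemma tail {k y : ℕ} (hk : 2 ≤ k) (hy : 1 ≤ y) (D : Finset ℕ) (hD : ∀ d ∈ D, y < d) :
    ∑ d ∈ D, 1 / (d : ℝ) ^ k ≤ 1 / y := by
  have h1 : D ⊆ Ioc y (max y (D.sup id)) := fun d hd =>
    mem_Ioc.2 ⟨hD d hd, le_max_of_le_right (le_sup (f := id) hd)⟩
  have h2 := sum_Ioc_inv_sq_le_sub (α := ℝ) (k := y) (n := max y (D.sup id)) (by omega)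
    (le_max_left _ _)
  have h3 : (0 : ℝ) ≤ ((max y (D.sup id) : ℕ) : ℝ)⁻¹ := by positivity
  calc _ ≤ ∑ d ∈ D, ((d : ℝ) ^ 2)⁻¹ := by
        refine sum_le_sum fun d hd => ?_
        have : (1 : ℝ) ≤ d := by exact_mod_cast (by have := hD d hd; omega : 1 ≤ d)
        rw [one_div]
        exact inv_anti₀ (by positivity) (pow_le_pow_right₀ this hk)
    _ ≤ ∑ d ∈ Ioc y (max y (D.sup id)), ((d : ℝ) ^ 2)⁻¹ :=
        sum_le_sum_of_subset_of_nonneg h1 fun _ _ _ => by positivity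
    _ ≤ _ := by rw [one_div]; linarith

/-- small divisors prime to `q` -/
noncomputable def A (k q Z m : ℕ) : ℝ :=
  ∑ d ∈ (m.divisors.filter (· ≤ Z)).filter (fun d => ¬ q ∣ d), 1 / (d : ℝ) ^ k

/-- small divisors that are multiples of `q` -/
noncomputable def B (k q Z m : ℕ) : ℝ :=
  ∑ d ∈ (m.divisors.filter (· ≤ Z)).filter (fun d => q ∣ d), 1 / (d : ℝ) ^ k

/-- large divisors -/
noncomputable def E (k Z m : ℕ) : ℝ := ∑ d ∈ m.divisors.filter (fun d => ¬ d ≤ Z), 1 / (d : ℝ) ^ k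

lemma split (k q Z m : ℕ) :
    ∑ d ∈ m.divisors, 1 / (d : ℝ) ^ k = A k q Z m + B k q Z m + E k Z m := by
  unfold A B E
  rw [add_comm (∑ d ∈ _, _) (∑ d ∈ (m.divisors.filter (· ≤ Z)).filter (fun d => q ∣ d), _),
    sum_filter_add_sum_filter_not, sum_filter_add_sum_filter_not]

lemma E_bd {k Z : ℕ} (hk : 2 ≤ k) (hZ : 1 ≤ Z) (m : ℕ) : 0 ≤ E k Z m ∧ E k Z m ≤ 1 / Z :=
  ⟨sum_nonneg fun _ _ => by positivity, tail hk hZ _ fun d hd => not_le.1 (mem_filter.1 hd).2⟩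

lemma B_zero {k q Z m : ℕ} (h : ¬ q ∣ m) : B k q Z m = 0 := by
  refine sum_eq_zero fun d hd => absurd ?_ h
  exact (mem_filter.1 hd).2.trans (Nat.dvd_of_mem_divisors (mem_filter.1 (mem_filter.1 hd).1).1)

lemma B_bd {k q Z m y : ℕ} (hk : 2 ≤ k) (hy : 1 ≤ y) (hq : y < q) (hZ : q ≤ Z) (hm : m ≠ 0)
    (h : q ∣ m) : 1 / (q : ℝ) ^ k ≤ B k q Z m ∧ B k q Z m ≤ 1 / y := by
  constructor
  · refine single_le_sum (f := fun d : ℕ => 1 / (d : ℝ) ^ k) (fun _ _ => by positivity) ?_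
    exact mem_filter.2 ⟨mem_filter.2 ⟨Nat.mem_divisors.2 ⟨h, hm⟩, hZ⟩, dvd_rfl⟩
  · exact tail hk hy
      ((m.divisors.filter (· ≤ Z)).filter (fun d => q ∣ d)) (fun d hd => by
        have h1 := Nat.pos_of_mem_divisors (mem_filter.1 (mem_filter.1 hd).1).1
        have h2 := Nat.le_of_dvd h1 (mem_filter.1 hd).2
        omega)

lemma A_eq {k q Z m m' P : ℕ} (hm : m ≠ 0) (hm' : m' ≠ 0) (h : m ≡ m' [MOD P])
    (hP : ∀ d, 1 ≤ d → d ≤ Z → ¬ q ∣ d → d ∣ P) : A k q Z m = A k q Z m' := by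
  unfold A
  congr 1
  ext d
  simp only [mem_filter, Nat.mem_divisors]
  constructor
  · rintro ⟨⟨⟨h1, -⟩, h2⟩, h3⟩
    have := hP d (Nat.pos_of_dvd_of_pos h1 (Nat.pos_of_ne_zero hm)) h2 h3
    exact ⟨⟨⟨((h.dvd_iff this).1 h1), hm'⟩, h2⟩, h3⟩
  · rintro ⟨⟨⟨h1, -⟩, h2⟩, h3⟩
    have := hP d (Nat.pos_of_dvd_of_pos h1 (Nat.pos_of_ne_zero hm')) h2 h3
    exact ⟨⟨⟨((h.dvd_iff this).2 h1), hm⟩, h2⟩, h3⟩

lemma crt {P q : ℕ} (hP : 0 < P) (hq : 0 < q) (h : Nat.Coprime P q) (a b N : ℕ) :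
    ∃ n, N ≤ n ∧ n ≡ a [MOD P] ∧ n ≡ b [MOD q] := by
  obtain ⟨x, h1, h2⟩ := Nat.chineseRemainder h a b
  refine ⟨x + P * q * N, ?_, ?_, ?_⟩
  · have : 1 * N ≤ P * q * N := Nat.mul_le_mul_right _ (Nat.mul_pos hP hq)
    omega
  · rw [mul_assoc]
    exact (Nat.ModEq.add_left x (Nat.modEq_zero_iff_dvd.2 (Dvd.intro _ rfl))).trans h1
  · rw [mul_comm P, mul_assoc]
    exact (Nat.ModEq.add_left x (Nat.modEq_zero_iff_dvd.2 (Dvd.intro _ rfl))).trans h2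

end LastRx

open LastRx in
theorem lastR {ι : Type*} (k : ℕ) (hk : 2 ≤ k) (I : Finset ι) (c : ι → ℝ) (t : ι → ℕ) (i0 : ι)
    (hi0 : i0 ∈ I) (hc : c i0 ≠ 0) (ht : ∀ i ∈ I, i ≠ i0 → c i ≠ 0 → t i ≠ t i0) (R r : ℕ)
    (hR : 0 < R) (h : ∀ ε : ℝ, 0 < ε → ∃ n0 : ℕ, ∀ n, n0 ≤ n → n ≡ r [MOD R] → ∃ z : ℤ,
      |∑ i ∈ I, c i * ∑ d ∈ (n + t i).divisors, 1 / (d : ℝ) ^ k - z| ≤ ε) : False := by
  classical
  have c0 : 0 < |c i0| := abs_pos.2 hc
  obtain ⟨y, hy⟩ := exists_nat_ge (2 * |c i0|)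
  have y0 : (0 : ℝ) < y := by linarith
  have y1 : 1 ≤ y := by exact_mod_cast y0
  obtain ⟨q, hq, qp⟩ := Nat.exists_infinite_primes (R + I.sup t + y + 3)
  have tq : ∀ i ∈ I, t i + 3 ≤ q := fun i hi => by have := le_sup (f := t) hi; omega
  have q0 : (0 : ℝ) < (q : ℝ) ^ k := by have := qp.pos; positivity
  set δ : ℝ := |c i0| * (1 / (q : ℝ) ^ k) with hδ
  have δ0 : 0 < δ := by positivity
  set S : ℝ := ∑ i ∈ I, |c i| with hS
  have S0 : 0 ≤ S := sum_nonneg fun _ _ => abs_nonneg _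
  obtain ⟨Z, hZ⟩ := exists_nat_ge (max (q : ℝ) (4 * S / δ))
  have Z1 : q ≤ Z := by exact_mod_cast (le_max_left _ _).trans hZ
  have Z0 : (0 : ℝ) < Z := by exact_mod_cast (by omega : 0 < Z)
  have Z2 : S * (1 / Z) ≤ δ / 4 := by
    have := (le_max_right _ _).trans hZ
    rw [div_le_iff₀ δ0] at this
    rw [mul_one_div, div_le_iff₀ Z0]
    linarith
  obtain ⟨n0, h⟩ := h (δ / 8) (by positivity)
  set P := R * ∏ d ∈ (Icc 1 Z).filter (fun d => ¬ q ∣ d), d with hP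
  have P0 : 0 < P := Nat.mul_pos hR (prod_pos fun d hd => (mem_Icc.1 (mem_filter.1 hd).1).1)
  have Pq : Nat.Coprime P q := by
    refine Nat.Coprime.mul_left ?_ (Nat.Coprime.prod_left fun d hd => ?_)
    · exact ((Nat.Prime.coprime_iff_not_dvd qp).2 (Nat.not_dvd_of_pos_of_lt hR (by omega))).symm
    · exact ((Nat.Prime.coprime_iff_not_dvd qp).2 (mem_filter.1 hd).2).symm
  have dP : ∀ d, 1 ≤ d → d ≤ Z → ¬ q ∣ d → d ∣ P := fun d h1 h2 h3 =>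
    (dvd_prod_of_mem (fun d => d) (mem_filter.2 ⟨mem_Icc.2 ⟨h1, h2⟩, h3⟩)).mul_left R
  obtain ⟨n, n1, n2, n3⟩ := crt P0 qp.pos Pq r (q - t i0) (n0 + 1)
  obtain ⟨m, m1, m2, m3⟩ := crt P0 qp.pos Pq r 1 (n0 + 1)
  obtain ⟨z, hz⟩ := h n (by omega) (n2.of_dvd (Dvd.intro _ rfl))
  obtain ⟨w, hw⟩ := h m (by omega) (m2.of_dvd (Dvd.intro _ rfl))
  have t0 := tq i0 hi0
  have dn : ∀ i ∈ I, t i ≠ t i0 → ¬ q ∣ n + t i := by
    intro i hi hne hd
    have a2 := tq i hi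
    have a3 := ((n3.add_right (t i)).dvd_iff dvd_rfl).1 hd
    rcases lt_or_gt_of_ne hne with a1 | a1
    · exact Nat.not_dvd_of_pos_of_lt (by omega) (by omega) a3
    · rw [show q - t i0 + t i = q + (t i - t i0) by omega, Nat.dvd_add_right dvd_rfl] at a3
      exact Nat.not_dvd_of_pos_of_lt (by omega) (by omega) a3
  have d0 : q ∣ n + t i0 := by
    rw [(n3.add_right (t i0)).dvd_iff dvd_rfl, show q - t i0 + t i0 = q by omega]
  have dm : ∀ i ∈ I, ¬ q ∣ m + t i := by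
    intro i hi hd
    have a2 := tq i hi
    exact Nat.not_dvd_of_pos_of_lt (by omega) (by omega)
      (((m3.add_right (t i)).dvd_iff dvd_rfl).1 hd)
  have e1 : ∑ i ∈ I, c i * ∑ d ∈ (n + t i).divisors, 1 / (d : ℝ) ^ k -
      ∑ i ∈ I, c i * ∑ d ∈ (m + t i).divisors, 1 / (d : ℝ) ^ k =
      c i0 * B k q Z (n + t i0) + ∑ i ∈ I, c i * (E k Z (n + t i) - E k Z (m + t i)) := by
    have e2 : c i0 * B k q Z (n + t i0) = ∑ i ∈ I, c i * B k q Z (n + t i) := by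
      symm
      refine sum_eq_single_of_mem i0 hi0 fun i hi hne => ?_
      by_cases h0 : c i = 0
      · rw [h0, zero_mul]
      · rw [B_zero (dn i hi (ht i hi hne h0)), mul_zero]
    rw [e2, ← sum_sub_distrib, ← sum_add_distrib]
    refine sum_congr rfl fun i hi => ?_
    rw [split k q Z, split k q Z, B_zero (dm i hi),
      A_eq (m := n + t i) (m' := m + t i) (by omega) (by omega)
        ((n2.trans m2.symm).add_right _) dP]
    ring
  have e3 : |∑ i ∈ I, c i * (E k Z (n + t i) - E k Z (m + t i))| ≤ S * (1 / Z) := by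
    rw [hS, sum_mul]
    refine (abs_sum_le_sum_abs _ _).trans (sum_le_sum fun i _ => ?_)
    rw [abs_mul]
    refine mul_le_mul_of_nonneg_left ?_ (abs_nonneg _)
    have a1 := E_bd hk (show 1 ≤ Z by omega) (n + t i)
    have a2 := E_bd hk (show 1 ≤ Z by omega) (m + t i)
    rw [abs_le]
    constructor <;> linarith [a1.1, a1.2, a2.1, a2.2]
  obtain ⟨b1, b2⟩ := B_bd (Z := Z) hk y1 (show y < q by omega) Z1 (by omega) d0
  have b0 : 0 ≤ B k q Z (n + t i0) := le_trans (by positivity) b1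
  have b3 : δ ≤ |c i0 * B k q Z (n + t i0)| := by
    rw [abs_mul, abs_of_nonneg b0]
    exact mul_le_mul_of_nonneg_left b1 c0.le
  have b4 : |c i0 * B k q Z (n + t i0)| ≤ 1 / 2 := by
    rw [abs_mul, abs_of_nonneg b0]
    refine (mul_le_mul_of_nonneg_left b2 c0.le).trans ?_
    rw [mul_one_div, div_le_iff₀ y0]
    linarith
  generalize c i0 * B k q Z (n + t i0) = b at *
  have f0 : |b - ((z - w : ℤ) : ℝ)| ≤ δ / 2 := by
    rw [abs_le] at hz hw e3 ⊢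
    push_cast
    constructor <;> linarith [hz.1, hz.2, hw.1, hw.2, e3.1, e3.2]
  have f1 := abs_sub_abs_le_abs_sub b ((z - w : ℤ) : ℝ)
  have f2 := abs_sub_abs_le_abs_sub ((z - w : ℤ) : ℝ) b
  rw [abs_sub_comm] at f2
  have f3 : (0 : ℝ) < |((z - w : ℤ) : ℝ)| := by linarith
  have f4 : |((z - w : ℤ) : ℝ)| < 1 := by linarith
  have f5 : 0 < |z - w| := by exact_mod_cast f3
  have f6 : |z - w| < 1 := by exact_mod_cast f4
  omega

end Pool.Agent.Lib.MP_68a45e_nt.Ek
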