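import Mathlib

/-! Integer weights on a cube that annihilate finitely many functions along every line. -/

namespace Pool.Agent.Lib.MP_68a45e_nt.Ek

open Finset

theorem exists_weight {ι κ : Type} [Fintype ι] [DecidableEq ι] [Fintype κ] (L : ℕ)
    (hL : Fintype.card ι * Fintype.card κ < L) (a : κ → (ι → Fin L) → ℚ) :
    ∃ w : (ι → Fin L) → ℤ, (∃ e, w e ≠ 0) ∧ ∀ (h : ι) (m : κ) (F : (ι → Fin L) → ℝ),
      (∀ e x, F (Function.update e h x) = F e) → ∑ e, (w e : ℝ) * (a m e : ℝ) * F e = 0 := by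
  classical
  have L0 : 0 < L := by omega
  let Φ : ((ι → Fin L) → ℚ) →ₗ[ℚ] ((Σ h : ι, ({j // j ≠ h} → Fin L) × κ) → ℚ) :=
    { toFun := fun v q => ∑ x, v ((Equiv.funSplitAt q.1 (Fin L)).symm (x, q.2.1)) *
        a q.2.2 ((Equiv.funSplitAt q.1 (Fin L)).symm (x, q.2.1))
      map_add' := fun u v => by
        funext q
        simp only [Pi.add_apply, add_mul, sum_add_distrib]
      map_smul' := fun c v => by
        funext q
        simp only [Pi.smul_apply, smul_eq_mul, RingHom.id_apply, mul_sum, mul_assoc] }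
  have hc : ∀ h : ι, Fintype.card ({j // j ≠ h} → Fin L) * L = Fintype.card (ι → Fin L) := by
    intro h
    rw [Fintype.card_congr (Equiv.funSplitAt h (Fin L)), Fintype.card_prod, Fintype.card_fin,
      mul_comm]
  have hp : 0 < Fintype.card (ι → Fin L) := by
    rw [Fintype.card_fun, Fintype.card_fin]; positivity
  have hlt : Module.finrank ℚ ((Σ h : ι, ({j // j ≠ h} → Fin L) × κ) → ℚ) <
      Module.finrank ℚ ((ι → Fin L) → ℚ) := by
    rw [Module.finrank_fintype_fun_eq_card, Module.finrank_fintype_fun_eq_card,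
      Fintype.card_sigma]
    refine lt_of_mul_lt_mul_right ?_ L0.le
    rw [sum_mul]
    have e : ∀ h : ι, Fintype.card (({j // j ≠ h} → Fin L) × κ) * L =
        Fintype.card (ι → Fin L) * Fintype.card κ := fun h => by
      rw [Fintype.card_prod, ← hc h]; ring
    simp only [e]
    rw [sum_const, card_univ, smul_eq_mul, mul_left_comm]
    exact Nat.mul_lt_mul_of_pos_left hL hp
  obtain ⟨v, hv, v0⟩ := (Submodule.ne_bot_iff _).1 (LinearMap.ker_ne_bot_of_finrank_lt
    (f := Φ) hlt)
  obtain ⟨b, hb⟩ := IsLocalization.exist_integer_multiples_of_finite (nonZeroDivisors ℤ) v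
  choose w hw using hb
  have hw' : ∀ e, (w e : ℚ) = (b : ℤ) * v e := fun e => by
    have := hw e
    simpa [zsmul_eq_mul] using this
  have b0 : ((b : ℤ) : ℚ) ≠ 0 := by exact_mod_cast nonZeroDivisors.coe_ne_zero b
  refine ⟨w, ?_, fun h m F hF => ?_⟩
  · obtain ⟨e, he⟩ := Function.ne_iff.1 v0
    refine ⟨e, fun h0 => ?_⟩
    have := hw' e
    rw [h0, Int.cast_zero] at this
    exact mul_ne_zero b0 he this.symm
  · rw [← (Equiv.funSplitAt h (Fin L)).symm.sum_comp, Fintype.sum_prod_type_right]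
    refine sum_eq_zero fun r _ => ?_
    have h1 : ∑ x, v ((Equiv.funSplitAt h (Fin L)).symm (x, r)) *
        a m ((Equiv.funSplitAt h (Fin L)).symm (x, r)) = 0 :=
      congrFun (LinearMap.mem_ker.1 hv) ⟨h, r, m⟩
    have h2 : ∀ x, F ((Equiv.funSplitAt h (Fin L)).symm (x, r)) =
        F ((Equiv.funSplitAt h (Fin L)).symm (⟨0, L0⟩, r)) := fun x => by
      rw [← hF ((Equiv.funSplitAt h (Fin L)).symm (⟨0, L0⟩, r)) x]
      congr 1
      funext j
      by_cases e : j = h
      · subst e; simp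
      · simp [e]
    simp only [h2]
    rw [← sum_mul]
    refine mul_eq_zero_of_left ?_ _
    have h3 : ∑ x, (w ((Equiv.funSplitAt h (Fin L)).symm (x, r)) : ℚ) *
        a m ((Equiv.funSplitAt h (Fin L)).symm (x, r)) = 0 := by
      simp only [hw', mul_assoc]
      rw [← mul_sum, h1, mul_zero]
    exact_mod_cast congrArg (Rat.cast : ℚ → ℝ) h3

end Pool.Agent.Lib.MP_68a45e_nt.Ek
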