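import Pool.Agent.Lib.MP_68a45e_nt.Ek.A
import Pool.Agent.Lib.MP_68a45e_nt.Ek.LastR
import Pool.Agent.Lib.MP_68a45e_nt.Ek.Wt
import Pool.Agent.Lib.MP_68a45e_nt.Ek.Cube79

/-! The top coefficient vanishes when the top index is at least two. -/

namespace Pool.Agent.Lib.MP_68a45e_nt.Ek

open Finset Filter Topology

/-- the family `1, σ_0, σ_1, …` -/
def G : ℕ → ℕ → ℤ
  | 0, _ => 1
  | k + 1, n => ArithmeticFunction.sigma k n

theorem G_succ (k n : ℕ) : (G (k + 1) n : ℝ) = sg k n := by simp [G, sg]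

theorem G_pos (j : ℕ) {n : ℕ} (hn : 0 < n) : (0 : ℝ) < G j n := by
  cases j with
  | zero => simp [G]
  | succ k => rw [G_succ]; exact sg_pos k hn

theorem G_mul (j : ℕ) {m n : ℕ} (h : m.Coprime n) : (G j (m * n) : ℝ) = G j m * G j n := by
  cases j with
  | zero => simp [G]
  | succ k => rw [G_succ, G_succ, G_succ]; exact sg_mul k h

theorem G_small {j r : ℕ} (hj : j ≤ r + 1) :
    Tendsto (fun m : ℕ => (G j m : ℝ) / (m : ℝ) ^ (r + 1)) atTop (𝓝 0) := by
  cases j with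
  | zero =>
    simp only [G, Int.cast_one]
    exact tendsto_const_nhds.div_atTop
      ((tendsto_pow_atTop (Nat.succ_ne_zero r)).comp tendsto_natCast_atTop_atTop)
  | succ k => simp only [G_succ]; exact sg_small (by omega)

theorem sg_div (k : ℕ) {x : ℕ} (hx : 0 < x) :
    sg k x / (x : ℝ) ^ k = ∑ d ∈ x.divisors, 1 / (d : ℝ) ^ k := by
  have hx' : (0 : ℝ) < x := by exact_mod_cast hx
  unfold sg
  rw [ArithmeticFunction.sigma_apply, ← Nat.sum_div_divisors x (fun d => d ^ k), Nat.cast_sum,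
    sum_div]
  refine sum_congr rfl fun d hd => ?_
  have hd0 : (0 : ℝ) < d := by exact_mod_cast Nat.pos_of_mem_divisors hd
  rw [Nat.cast_pow, Nat.cast_div (Nat.dvd_of_mem_divisors hd) hd0.ne', div_pow]
  field_simp

theorem shape (K : ℕ) (c z : ℕ → ℤ)
    (hz : ∀ N : ℕ, 1 ≤ N → (N : ℤ) * z N = ∑ j ∈ range (K + 3), c j * G j N + z (N + 1))
    (hg : Tendsto (fun N : ℕ => (z N : ℝ) / (N : ℝ) ^ (K + 1)) atTop (𝓝 0)) :
    ∃ b : ℕ → ℕ → ℝ, Tendsto (fun N : ℕ => (z N : ℝ) -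
      ∑ h ∈ range K, ∑ j ∈ range (K + 3), ∑ x ∈ range (K + 1 - h),
        c j * b h x * ((G j (N + h) : ℝ) / ((N + h : ℕ) : ℝ) ^ (h + 1 + x)) -
      c (K + 2) * (sg (K + 1) (N + K) / ((N + K : ℕ) : ℝ) ^ (K + 1))) atTop (𝓝 0) := by
  choose b b0 hb using fun h => approx h (K + 1 - h)
  refine ⟨b, ?_⟩
  have h1 := near (f := fun N => ∑ j ∈ range (K + 3), c j * G j N) hz hg
  have h2 : Tendsto (fun N : ℕ => ∑ h ∈ range (K + 1), ∑ j ∈ range (K + 3), (c j : ℝ) *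
      ((G j (N + h) : ℝ) / ∏ i ∈ range (h + 1), ((N : ℝ) + i) - ∑ x ∈ range (K + 1 - h),
        b h x * ((G j (N + h) : ℝ) / ((N + h : ℕ) : ℝ) ^ (h + 1 + x)))) atTop (𝓝 0) := by
    have := tendsto_finsetSum (range (K + 1)) fun h hh =>
      tendsto_finsetSum (range (K + 3)) fun j hj =>
        (hb h (fun m => (G j m : ℝ)) (G_small (j := j) (r := h + (K + 1 - h)) (by
          have := mem_range.1 hh; have := mem_range.1 hj; omega))).const_mul (c j : ℝ)
    simpa only [mul_zero, sum_const_zero] using this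
  have h3 : Tendsto (fun N : ℕ => ∑ j ∈ range (K + 2), (c j : ℝ) *
      ((G j (N + K) : ℝ) / ((N + K : ℕ) : ℝ) ^ (K + 1))) atTop (𝓝 0) := by
    have := tendsto_finsetSum (range (K + 2)) fun j hj =>
      ((G_small (j := j) (r := K) (by have := mem_range.1 hj; omega)).comp
        (tendsto_add_atTop_nat K)).const_mul (c j : ℝ)
    simpa only [mul_zero, sum_const_zero, Function.comp_apply] using this
  have h4 := (h1.add h2).add h3
  rw [add_zero, add_zero] at h4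
  refine h4.congr fun N => ?_
  have e1 : ∑ j ∈ range (K + 3), (c j : ℝ) * ∑ x ∈ range (K + 1 - K),
      b K x * ((G j (N + K) : ℝ) / ((N + K : ℕ) : ℝ) ^ (K + 1 + x)) =
      ∑ j ∈ range (K + 2), (c j : ℝ) * ((G j (N + K) : ℝ) / ((N + K : ℕ) : ℝ) ^ (K + 1)) +
        c (K + 2) * (sg (K + 1) (N + K) / ((N + K : ℕ) : ℝ) ^ (K + 1)) := by
    rw [Nat.add_sub_cancel_left, ← G_succ, ← sum_range_succ
      (fun j => (c j : ℝ) * ((G j (N + K) : ℝ) / ((N + K : ℕ) : ℝ) ^ (K + 1)))]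
    exact sum_congr rfl fun j _ => by rw [sum_range_one, b0, one_mul, add_zero]
  have e2 : ∑ h ∈ range (K + 1), (((∑ j ∈ range (K + 3), c j * G j (N + h) : ℤ) : ℝ) /
      ∏ i ∈ range (h + 1), ((N : ℝ) + i)) = ∑ h ∈ range (K + 1), ∑ j ∈ range (K + 3),
        (c j : ℝ) * ((G j (N + h) : ℝ) / ∏ i ∈ range (h + 1), ((N : ℝ) + i)) :=
    sum_congr rfl fun h _ => by
      push_cast
      rw [sum_div]
      exact sum_congr rfl fun j _ => mul_div_assoc _ _ _
  have e3 : ∑ h ∈ range K, ∑ j ∈ range (K + 3), (c j : ℝ) * ∑ x ∈ range (K + 1 - h),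
      b h x * ((G j (N + h) : ℝ) / ((N + h : ℕ) : ℝ) ^ (h + 1 + x)) =
      ∑ h ∈ range K, ∑ j ∈ range (K + 3), ∑ x ∈ range (K + 1 - h),
        c j * b h x * ((G j (N + h) : ℝ) / ((N + h : ℕ) : ℝ) ^ (h + 1 + x)) := by
    simp only [mul_sum, mul_assoc]
  simp only [mul_sub, sum_sub_distrib]
  rw [e2, sum_range_succ (fun h => ∑ j ∈ range (K + 3), (c j : ℝ) * ∑ x ∈ range (K + 1 - h),
    b h x * ((G j (N + h) : ℝ) / ((N + h : ℕ) : ℝ) ^ (h + 1 + x))), e1, e3]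
  ring

theorem high (K : ℕ) (hK : 1 ≤ K) (c z : ℕ → ℤ)
    (hz : ∀ N : ℕ, 1 ≤ N → (N : ℤ) * z N = ∑ j ∈ range (K + 3), c j * G j N + z (N + 1))
    (hg : Tendsto (fun N : ℕ => (z N : ℝ) / (N : ℝ) ^ (K + 1)) atTop (𝓝 0)) : c (K + 2) = 0 := by
  by_contra hc
  obtain ⟨b, hb⟩ := shape K c z hz hg
  set L := K * ((K + 3) * (K + 2)) + 1 with hL
  obtain ⟨W, u, R, r0, n0, -, -, hR, hinj, hN⟩ := cube K L
  set p : (Fin K → Fin L) → ℕ := fun e => 1 + W * ∑ i, (e i : ℕ) * u i with hp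
  have p0 : ∀ e, 0 < p e := fun e => by simp only [hp]; omega
  obtain ⟨w, ⟨e0, he0⟩, hw⟩ := exists_weight (ι := Fin K) (κ := Fin (K + 3) × Fin (K + 2)) L
    (by simp [hL]) fun m e => (p e : ℚ) ^ (m.2 : ℕ) / (G m.1 (p e) : ℚ)
  refine lastR (K + 1) (by omega) univ
    (fun e => (w e : ℝ) * c (K + 2) * ((p e : ℝ) ^ (K + 1) / sg (K + 1) (p e)))
    (fun e => K + W * ∑ i : Fin K, (K - i) * (e i : ℕ) * u i) e0 (mem_univ _) ?_
    (fun e _ he _ h => he (hinj h)) R r0 hR fun ε hε => ?_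
  · have h1 : (0 : ℝ) < p e0 := by exact_mod_cast p0 e0
    have h2 := sg_pos (K + 1) (p0 e0)
    exact mul_ne_zero (mul_ne_zero (Int.cast_ne_zero.2 he0) (Int.cast_ne_zero.2 hc))
      (by positivity)
  set S : ℝ := ∑ e, |(w e : ℝ)| with hS
  have S0 : 0 ≤ S := sum_nonneg fun _ _ => abs_nonneg _
  obtain ⟨N0, hN0⟩ := Metric.tendsto_atTop.1 hb (ε / (S + 1)) (by positivity)
  refine ⟨n0 + ∑ e, (p e * (N0 + 1) + W * ∑ i : Fin K, (i : ℕ) * (e i : ℕ) * u i),
    fun n hn hr => ?_⟩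
  choose N hNe using hN n (by omega) hr
  have big : ∀ e, N0 + 1 ≤ N e := fun e => by
    have h1 := (hNe e 0 (Nat.zero_le _)).1
    have h2 : p e * (N0 + 1) + W * ∑ i : Fin K, (i : ℕ) * (e i : ℕ) * u i ≤ n :=
      (single_le_sum (f := fun e => p e * (N0 + 1) + W * ∑ i : Fin K, (i : ℕ) * (e i : ℕ) * u i)
        (fun _ _ => Nat.zero_le _) (mem_univ e)).trans (by omega)
    have h3 : p e * N e + W * ∑ i : Fin K, (i : ℕ) * (e i : ℕ) * u i = n := by
      have h4 : ((p e * N e : ℕ) : ℤ) = _ := h1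
      simp only [Nat.cast_zero, zero_sub, neg_mul, sum_neg_distrib, add_zero] at h4
      zify at h4 ⊢
      linarith
    exact Nat.le_of_mul_le_mul_left (by omega) (p0 e)
  have ratio : ∀ e j y h, h ≤ K → (G j (N e + h) : ℝ) / ((N e + h : ℕ) : ℝ) ^ y =
      (p e : ℝ) ^ y / G j (p e) *
        ((G j (p e * (N e + h)) : ℝ) / ((p e * (N e + h) : ℕ) : ℝ) ^ y) := fun e j y h hh => by
    have h1 : (0 : ℝ) < p e := by exact_mod_cast p0 e
    have h2 := G_pos j (p0 e)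
    have h3 : (0 : ℝ) < ((N e + h : ℕ) : ℝ) := by
      exact_mod_cast (by have := big e; omega : 0 < N e + h)
    have h4 : (p e).Coprime (N e + h) := (hNe e h hh).2
    rw [G_mul j h4, Nat.cast_mul, mul_pow]
    generalize (((N e + h : ℕ) : ℝ)) = X at h3 ⊢
    field_simp
  have kill : ∀ h ∈ range K, ∀ j ∈ range (K + 3), ∀ y < K + 2,
      ∑ e, (w e : ℝ) * ((G j (N e + h) : ℝ) / ((N e + h : ℕ) : ℝ) ^ y) = 0 := by
    intro h hh j hj y hy
    have hh' := mem_range.1 hh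
    have inv : ∀ e x, p (Function.update e ⟨h, hh'⟩ x) * (N (Function.update e ⟨h, hh'⟩ x) + h) =
        p e * (N e + h) := fun e x => by
      have h1 := (hNe (Function.update e ⟨h, hh'⟩ x) h hh'.le).1
      have h2 := (hNe e h hh'.le).1
      refine Int.natCast_inj.1 (h1.trans (Eq.trans ?_ h2.symm))
      congr 2
      refine sum_congr rfl fun i _ => ?_
      by_cases hi : i = ⟨h, hh'⟩
      · subst hi; simp
      · rw [Function.update_of_ne hi]
    have := hw ⟨h, hh'⟩ (⟨j, mem_range.1 hj⟩, ⟨y, hy⟩)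
      (fun e => (G j (p e * (N e + h)) : ℝ) / ((p e * (N e + h) : ℕ) : ℝ) ^ y)
      fun e x => by simp only [inv]
    rw [← this]
    refine sum_congr rfl fun e _ => ?_
    rw [ratio e j y h hh'.le, mul_assoc]
    push_cast
    rfl
  have top : ∀ e, sg (K + 1) (N e + K) / ((N e + K : ℕ) : ℝ) ^ (K + 1) =
      (p e : ℝ) ^ (K + 1) / sg (K + 1) (p e) * ∑ d ∈
        (n + (K + W * ∑ i : Fin K, (K - i) * (e i : ℕ) * u i)).divisors,
          1 / (d : ℝ) ^ (K + 1) := fun e => by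
    have h1 : p e * (N e + K) = n + (K + W * ∑ i : Fin K, (K - i) * (e i : ℕ) * u i) := by
      refine Int.natCast_inj.1 ((hNe e K le_rfl).1.trans ?_)
      push_cast
      rw [add_assoc]
      congr 3
      exact sum_congr rfl fun i _ => by rw [Nat.cast_sub i.2.le]
    rw [← G_succ, ratio e _ _ K le_rfl, G_succ, G_succ, h1, sg_div _ (by omega)]
  refine ⟨∑ e, w e * z (N e), ?_⟩
  have zero : ∑ e, (w e : ℝ) * ∑ h ∈ range K, ∑ j ∈ range (K + 3), ∑ x ∈ range (K + 1 - h),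
      c j * b h x * ((G j (N e + h) : ℝ) / ((N e + h : ℕ) : ℝ) ^ (h + 1 + x)) = 0 := by
    simp only [mul_sum]
    rw [sum_comm]
    refine sum_eq_zero fun h hh => ?_
    rw [sum_comm]
    refine sum_eq_zero fun j hj => ?_
    rw [sum_comm]
    refine sum_eq_zero fun x hx => ?_
    have := kill h hh j hj (h + 1 + x) (by have := mem_range.1 hx; omega)
    simp only [mul_left_comm (w _ : ℝ)]
    rw [← mul_sum, this, mul_zero]
  have key : ∑ e, (w e : ℝ) * c (K + 2) * ((p e : ℝ) ^ (K + 1) / sg (K + 1) (p e)) * ∑ d ∈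
      (n + (K + W * ∑ i : Fin K, (K - i) * (e i : ℕ) * u i)).divisors, 1 / (d : ℝ) ^ (K + 1) -
      ((∑ e, w e * z (N e) : ℤ) : ℝ) = -∑ e, (w e : ℝ) * ((z (N e) : ℝ) -
      ∑ h ∈ range K, ∑ j ∈ range (K + 3), ∑ x ∈ range (K + 1 - h),
        c j * b h x * ((G j (N e + h) : ℝ) / ((N e + h : ℕ) : ℝ) ^ (h + 1 + x)) -
      c (K + 2) * (sg (K + 1) (N e + K) / ((N e + K : ℕ) : ℝ) ^ (K + 1))) := by
    simp only [mul_sub, sum_sub_distrib]
    rw [zero, Int.cast_sum, sub_zero, neg_sub]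
    congr 1
    · exact sum_congr rfl fun e _ => by rw [top e]; ring
    · exact sum_congr rfl fun e _ => Int.cast_mul _ _
  rw [key, abs_neg]
  refine (abs_sum_le_sum_abs _ _).trans ((sum_le_sum
    (g := fun e => |(w e : ℝ)| * (ε / (S + 1))) fun e _ => ?_).trans ?_)
  · have := hN0 (N e) (by have := big e; omega)
    rw [Real.dist_eq, sub_zero] at this
    rw [abs_mul]
    exact mul_le_mul_of_nonneg_left this.le (abs_nonneg _)
  · rw [← sum_mul, ← hS, ← mul_div_assoc, div_le_iff₀ (by positivity)]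
    nlinarith

end Pool.Agent.Lib.MP_68a45e_nt.Ek
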