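import Mathlib

/-! Relations of top index at most one. -/

namespace Pool.Agent.Lib.MP_68a45e_nt.Ek

open Finset ArithmeticFunction Filter

namespace Lowx

theorem small (K : ℝ) (N0 : ℕ) : ∃ m : ℕ, N0 ≤ m ∧ K * (m + 1) < 2 ^ m := by
  have h1 := (tendsto_pow_const_div_const_pow_of_one_lt 1 (one_lt_two (α := ℝ))).const_mul K
  have h2 := (tendsto_pow_const_div_const_pow_of_one_lt 0 (one_lt_two (α := ℝ))).const_mul K
  have h3 := h1.add h2
  rw [mul_zero, add_zero] at h3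
  obtain ⟨m, hm, h⟩ := ((Filter.eventually_ge_atTop N0).and
    (h3.eventually (gt_mem_nhds one_pos))).exists
  refine ⟨m, hm, ?_⟩
  have h4 : (0 : ℝ) < 2 ^ m := by positivity
  rw [← mul_add, ← add_div, ← mul_div_assoc, div_lt_one h4, pow_one, pow_zero] at h
  exact h

end Lowx

open Lowx in
theorem low (b c0 c1 : ℤ) (z : ℕ → ℤ)
    (h : ∀ N : ℕ, 1 ≤ N → (N : ℤ) * z N =
      (b + c0 * (sigma 0 N : ℕ) + c1 * (sigma 1 N : ℕ)) + z (N + 1))
    (hz : Tendsto (fun N : ℕ => (z N : ℝ) / N) atTop (nhds 0)) : c1 = 0 := by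
  obtain ⟨q, hq1, hq⟩ := Nat.exists_infinite_primes (c1.natAbs + 2)
  have q2 : (2 : ℝ) ≤ q := by exact_mod_cast hq.two_le
  have a0 : (0 : ℝ) ≤ |(c0 : ℝ)| := abs_nonneg _
  have a1 : (0 : ℝ) ≤ |(c1 : ℝ)| := abs_nonneg _
  have ab : (0 : ℝ) ≤ |(b : ℝ)| := abs_nonneg _
  obtain ⟨N0, hN0⟩ := eventually_atTop.1 (hz.abs.eventually
    (gt_mem_nhds (show |(0 : ℝ)| < 1 / (4 * q) by rw [abs_zero]; positivity)))
  obtain ⟨m, hm, hs⟩ := small (2 * (q * (|(b : ℝ)| + |(c0 : ℝ)|) + |(c1 : ℝ)|)) N0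
  have m0 : (0 : ℝ) ≤ m := Nat.cast_nonneg m
  have hN : m < q ^ m := Nat.lt_pow_self hq.one_lt
  have h1 := h (q ^ m) (by omega)
  have h2 := hN0 (q ^ m + 1) (by omega)
  have hx2 : (2 : ℝ) ^ m ≤ (q : ℝ) ^ m := by gcongr
  have e1 : ((q : ℝ) - 1) * ((sigma 1 (q ^ m) : ℕ) : ℝ) = q * (q : ℝ) ^ m - 1 := by
    rw [sigma_one_apply_prime_pow hq]; push_cast
    rw [mul_geom_sum, pow_succ']
  rw [sigma_zero_apply_prime_pow hq] at h1
  have h3 : (q : ℝ) ^ m * z (q ^ m) = (b + c0 * (m + 1) + c1 * ((sigma 1 (q ^ m) : ℕ) : ℝ)) +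
      z (q ^ m + 1) := by exact_mod_cast h1
  have x1 : (1 : ℝ) ≤ (q : ℝ) ^ m := one_le_pow₀ (by linarith)
  push_cast at h2
  generalize ((sigma 1 (q ^ m) : ℕ) : ℝ) = s at *
  generalize z (q ^ m + 1) = v at *
  generalize z (q ^ m) = u at *
  generalize (q : ℝ) ^ m = x at *
  have x0 : 0 < x := by linarith
  rw [abs_div, abs_of_pos (show 0 < x + 1 by linarith),
    div_lt_div_iff₀ (by linarith) (by linarith)] at h2
  have av : (0 : ℝ) ≤ |(v : ℝ)| := abs_nonneg _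
  have k2 : |(c0 : ℝ) * (m + 1)| = |(c0 : ℝ)| * (m + 1) := by
    rw [abs_mul, abs_of_nonneg (show (0 : ℝ) ≤ m + 1 by linarith)]
  have t1 : |(b : ℝ) + c0 * (m + 1) + v| ≤ (|(b : ℝ)| + |(c0 : ℝ)|) * (m + 1) + |(v : ℝ)| := by
    have g1 := abs_add_le ((b : ℝ) + c0 * (m + 1)) v
    have g2 := abs_add_le (b : ℝ) (c0 * (m + 1))
    nlinarith [mul_nonneg ab m0]
  have t2 : u * (q - 1) - c1 * q = (0 : ℤ) := by
    rw [← Int.abs_lt_one_iff]
    have e : (((u * (q - 1) - c1 * q : ℤ) : ℝ)) * x = (q - 1) * (b + c0 * (m + 1) + v) - c1 := by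
      push_cast
      linear_combination ((q : ℝ) - 1) * h3 + (c1 : ℝ) * e1
    have f : |(((u * (q - 1) - c1 * q : ℤ) : ℝ))| * x < 1 * x := by
      rw [← abs_of_pos x0, ← abs_mul, e, abs_of_pos x0]
      have g := abs_sub (((q : ℝ) - 1) * (b + c0 * (m + 1) + v)) c1
      rw [abs_mul, abs_of_nonneg (show (0 : ℝ) ≤ q - 1 by linarith)] at g
      have g2 := mul_le_mul (show (q : ℝ) - 1 ≤ q by linarith) t1 (abs_nonneg _) (by linarith)
      nlinarith [mul_nonneg a1 m0]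
    exact_mod_cast lt_of_mul_lt_mul_right f x0.le
  refine Int.eq_zero_of_abs_lt_dvd (m := (q : ℤ) - 1) ⟨u - c1, by linear_combination -t2⟩ ?_
  rw [Int.abs_eq_natAbs]
  omega

theorem low0 (b c0 : ℤ) (z : ℕ → ℤ)
    (h : ∀ N : ℕ, 1 ≤ N → (N : ℤ) * z N = (b + c0 * (sigma 0 N : ℕ)) + z (N + 1))
    (hz : Tendsto (fun N : ℕ => (z N : ℝ)) atTop (nhds 0)) : b = 0 ∧ c0 = 0 := by
  obtain ⟨N0, hN0⟩ := eventually_atTop.1 (hz.abs.eventually
    (gt_mem_nhds (show |(0 : ℝ)| < 1 by simp)))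
  have z0 : ∀ N, N0 ≤ N → z N = 0 := fun N hN => by
    rw [← Int.abs_lt_one_iff]
    exact_mod_cast hN0 N hN
  have k : ∀ m, N0 ≤ m → b + c0 * (m + 1 : ℕ) = 0 := fun m hm => by
    have hN : m < 2 ^ m := Nat.lt_two_pow_self
    have := h (2 ^ m) (by omega)
    rw [z0 _ (by omega), z0 _ (by omega), sigma_zero_apply_prime_pow Nat.prime_two] at this
    linarith
  have k1 := k N0 le_rfl
  have k2 := k (N0 + 1) (by omega)
  push_cast at k1 k2
  have k3 : c0 = 0 := by linarith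
  rw [k3] at k1
  exact ⟨by linarith, k3⟩

end Pool.Agent.Lib.MP_68a45e_nt.Ek
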