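import Pool.Agent.Lib.MP_68a45e_nt.Ek.High
import Pool.Agent.Lib.MP_68a45e_nt.Ek.Low

/-! Linear independence of the factorial series. -/

namespace Pool.Agent.Lib.MP_68a45e_nt.Ek

open Finset Filter Topology

theorem comb_small (c : ℕ → ℤ) {s r : ℕ} (h : s ≤ r + 2) :
    Tendsto (fun m : ℕ => ((∑ j ∈ range s, c j * G j m : ℤ) : ℝ) / (m : ℝ) ^ (r + 1))
      atTop (𝓝 0) := by
  have := tendsto_finsetSum (range s) fun j hj =>
    (G_small (j := j) (r := r) (by have := mem_range.1 hj; omega)).const_mul (c j : ℝ)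
  simp only [mul_zero, sum_const_zero] at this
  refine this.congr fun m => ?_
  push_cast
  rw [sum_div]
  exact sum_congr rfl fun j _ => (mul_div_assoc _ _ _).symm

theorem int_rel (s : ℕ) : ∀ (c : ℕ → ℤ) (a : ℤ),
    ∑' n : ℕ, ((∑ j ∈ range (s + 2), c j * G j n : ℤ) : ℝ) / (n.factorial : ℝ) = a →
    ∀ j < s + 2, c j = 0 := by
  induction s with
  | zero =>
    intro c a h
    obtain ⟨z, h1, h2⟩ := first (comb_small c (r := 0) le_rfl) h
    have := low0 (c 0) (c 1) z (fun N hN => by simpa [sum_range_succ, G] using h1 N hN)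
      (by simpa using h2)
    intro j hj
    interval_cases j
    · exact this.1
    · exact this.2
  | succ s ih =>
    intro c a h
    obtain ⟨z, h1, h2⟩ := first (comb_small c (r := s + 1) le_rfl) h
    have top : c (s + 2) = 0 := by
      rcases Nat.eq_zero_or_pos s with rfl | hs
      · exact low (c 0) (c 1) (c 2) z (fun N hN => by simpa [sum_range_succ, G] using h1 N hN)
          (by simpa using h2)
      · exact high s hs c z h1 h2
    have h3 := ih c a (by
      rw [← h]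
      exact tsum_congr fun n => by
        rw [sum_range_succ _ (s + 2), top, zero_mul, add_zero])
    intro j hj
    rcases Nat.lt_succ_iff_lt_or_eq.1 hj with h4 | rfl
    · exact h3 j h4
    · exact top

theorem G_summable (j : ℕ) : Summable fun n : ℕ => (G j n : ℝ) / (n.factorial : ℝ) :=
  summable_of (G_small (r := j) (Nat.le_succ j))

theorem rat_rel (s : ℕ) (c : ℕ → ℚ) (a : ℚ)
    (h : (a : ℝ) + ∑ j ∈ range (s + 2), (c j : ℝ) * ∑' n : ℕ, (G j n : ℝ) / (n.factorial : ℝ) = 0) :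
    ∀ j < s + 2, c j = 0 := by
  set D : ℕ := a.den * ∏ j ∈ range (s + 2), (c j).den with hD
  have D0 : D ≠ 0 := mul_ne_zero a.den_nz (prod_ne_zero_iff.2 fun j _ => (c j).den_nz)
  have key : ∀ q : ℚ, q.den ∣ D → ∃ z : ℤ, (z : ℚ) = D * q := fun q ⟨t, ht⟩ =>
    ⟨t * q.num, by rw [ht]; push_cast; rw [mul_comm (q.den : ℚ), mul_assoc, Rat.den_mul_eq_num]⟩
  obtain ⟨A, hA⟩ := key a (Dvd.intro _ rfl)
  have : ∀ j, ∃ z : ℤ, j < s + 2 → (z : ℚ) = D * c j := fun j => by
    by_cases hj : j < s + 2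
    · obtain ⟨z, hz⟩ := key (c j) ((dvd_prod_of_mem _ (mem_range.2 hj)).mul_left _)
      exact ⟨z, fun _ => hz⟩
    · exact ⟨0, fun h => absurd h hj⟩
  choose C hC using this
  have h1 := int_rel s C (-A) (by
    have e1 : ∀ n : ℕ, ((∑ j ∈ range (s + 2), C j * G j n : ℤ) : ℝ) / (n.factorial : ℝ) =
        ∑ j ∈ range (s + 2), (C j : ℝ) * ((G j n : ℝ) / (n.factorial : ℝ)) := fun n => by
      push_cast
      rw [sum_div]
      exact sum_congr rfl fun j _ => mul_div_assoc _ _ _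
    have e2 : (A : ℝ) = D * a := by exact_mod_cast congrArg (Rat.cast : ℚ → ℝ) hA
    rw [tsum_congr e1, Summable.tsum_finsetSum fun j _ => (G_summable j).mul_left _,
      Int.cast_neg, e2, eq_neg_iff_add_eq_zero, add_comm, ← mul_zero (D : ℝ), ← h, mul_add,
      mul_sum]
    congr 1
    refine sum_congr rfl fun j hj => ?_
    have e3 : (C j : ℝ) = D * c j := by
      exact_mod_cast congrArg (Rat.cast : ℚ → ℝ) (hC j (mem_range.1 hj))
    rw [tsum_mul_left, e3, mul_assoc])
  intro j hj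
  have h2 := hC j hj
  rw [h1 j hj, Int.cast_zero] at h2
  exact (mul_eq_zero.1 h2.symm).resolve_left (Nat.cast_ne_zero.2 D0)

theorem main (r : ℕ) (a b : ℚ) (c : ℕ → ℚ)
    (h : (a : ℝ) + b * Real.exp 1 + ∑ k ∈ range r, (c k : ℝ) *
      ∑' n : ℕ, (ArithmeticFunction.sigma k n : ℝ) / (n.factorial : ℝ) = 0) :
    a = 0 ∧ b = 0 ∧ ∀ k < r, c k = 0 := by
  have he : Real.exp 1 = ∑' n : ℕ, (G 0 n : ℝ) / (n.factorial : ℝ) := by
    rw [Real.exp_eq_exp_ℝ, NormedSpace.exp_eq_tsum_div]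
    simp [G]
  let c' : ℕ → ℚ := fun j => Nat.casesOn j b fun k => if k < r then c k else 0
  have h1 := rat_rel r c' a (by
    rw [sum_range_succ', sum_range_succ, ← h, he]
    have e1 : ∑ k ∈ range r, (c' (k + 1) : ℝ) * ∑' n : ℕ, (G (k + 1) n : ℝ) / (n.factorial : ℝ) =
        ∑ k ∈ range r, (c k : ℝ) *
          ∑' n : ℕ, (ArithmeticFunction.sigma k n : ℝ) / (n.factorial : ℝ) :=
      sum_congr rfl fun k hk => by simp [c', mem_range.1 hk, G]
    have e2 : c' (r + 1) = 0 := by simp [c']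
    have e3 : c' 0 = b := rfl
    rw [e1, e2, e3]
    push_cast
    ring)
  have hb : b = 0 := h1 0 (by omega)
  have hc : ∀ k < r, c k = 0 := fun k hk => by
    have := h1 (k + 1) (by omega)
    simpa [c', hk] using this
  refine ⟨?_, hb, hc⟩
  rw [hb, sum_eq_zero fun k hk => by rw [hc k (mem_range.1 hk), Rat.cast_zero, zero_mul]] at h
  simpa using h

end Pool.Agent.Lib.MP_68a45e_nt.Ek
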